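import Mathlib
import Pool.Agent.H788R2.Trunc3

set_option autoImplicit false

namespace Pool.Agent.Results.MP_d99112_an.FourNonrealZeros

open MeasureTheory

/-- The kernel `Φ(t)`: twice the sum over `n ≥ 1` of
`(2 π² n⁴ e^{9t/2} - 3 π n² e^{5t/2}) exp (-π n² e^{2t})` (the index is shifted by one). -/
noncomputable def Phi (t : ℝ) : ℝ :=
  2 * ∑' n : ℕ, (2 * Real.pi ^ 2 * ((n : ℝ) + 1) ^ 4 * Real.exp (9 * t / 2)
    - 3 * Real.pi * ((n : ℝ) + 1) ^ 2 * Real.exp (5 * t / 2)) *
      Real.exp (-(Real.pi * ((n : ℝ) + 1) ^ 2 * Real.exp (2 * t)))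

/-- The truncated cosine transform `F_R z = ∫_0^R Φ(x) cos (z x) dx`. -/
noncomputable def F (R : ℝ) (z : ℂ) : ℂ :=
  ∫ x in (0 : ℝ)..R, ((Phi x : ℝ) : ℂ) * Complex.cos (z * x)

lemma Phi_eq (t : ℝ) : Phi t = 2 * Pool.Agent.Helper242.RK.Phi (t / 2) := by
  unfold Phi Pool.Agent.Helper242.RK.Phi
  congr 1
  refine tsum_congr fun n => ?_
  rw [show 9 * (t / 2) = 9 * t / 2 by ring, show 5 * (t / 2) = 5 * t / 2 by ring,
    show 4 * (t / 2) = 2 * t by ring]
  ring_nf

lemma F_eq (R : ℝ) (z : ℂ) : F R z = 4 * Pool.Agent.H788R2.Trunc.H (R / 2) (2 * z) := by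
  unfold F Pool.Agent.H788R2.Trunc.H
  have h := intervalIntegral.integral_comp_div (a := (0 : ℝ)) (b := R)
    (fun u : ℝ => ((Pool.Agent.Helper242.RK.Phi u : ℝ) : ℂ) * Complex.cos (2 * z * u))
    (c := 2) (by norm_num)
  rw [zero_div] at h
  have h2 : (4 : ℂ) * (∫ t in (0 : ℝ)..R / 2, ((Pool.Agent.Helper242.RK.Phi t : ℝ) : ℂ) *
      Complex.cos (2 * z * t)) = 2 * ∫ x in (0 : ℝ)..R,
        ((Pool.Agent.Helper242.RK.Phi (x / 2) : ℝ) : ℂ) * Complex.cos (2 * z * ((x / 2 : ℝ) : ℂ)) := by
    rw [h, Complex.real_smul]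
    push_cast
    ring
  rw [h2, ← intervalIntegral.integral_const_mul]
  refine intervalIntegral.integral_congr fun x _ => ?_
  rw [Phi_eq]
  push_cast
  ring_nf

lemma F_neg (R : ℝ) (z : ℂ) : F R (-z) = F R z := by
  unfold F
  refine intervalIntegral.integral_congr fun x _ => ?_
  rw [neg_mul, Complex.cos_neg]

lemma F_conj (R : ℝ) (z : ℂ) : F R ((starRingEnd ℂ) z) = (starRingEnd ℂ) (F R z) := by
  unfold F
  rw [intervalIntegral.intervalIntegral_eq_integral_uIoc,
    intervalIntegral.intervalIntegral_eq_integral_uIoc, Complex.real_smul, Complex.real_smul,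
    map_mul, Complex.conj_ofReal, ← integral_conj]
  congr 2
  ext x
  rw [map_mul, Complex.conj_ofReal, ← Complex.cos_conj, map_mul, Complex.conj_ofReal]

/-- For every `R ≥ 10` the function `F_R` has four distinct zeros off both axes, with
`|Im z| > π e^{2R}`. -/
theorem result : ∀ R : ℝ, 10 ≤ R → ∃ S : Finset ℂ, S.card = 4 ∧
    ∀ z ∈ S, F R z = 0 ∧ z.re ≠ 0 ∧ Real.pi * Real.exp (2 * R) < |z.im| := by
  intro R hR
  obtain ⟨w, hw, hwi⟩ := Pool.Agent.H788R2.Trunc.main (R := R / 2) (by linarith)
  rw [show 4 * (R / 2) = 2 * R by ring] at hwi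
  have hpos : 0 < Real.pi * Real.exp (2 * R) := by positivity
  have hw2 : F R (w / 2) = 0 := by
    rw [F_eq, show 2 * (w / 2) = w by ring, hw, mul_zero]
  have hzi : (w / 2).im = w.im / 2 := by
    rw [show w / 2 = ((1 / 2 : ℝ) : ℂ) * w by push_cast; ring, Complex.im_ofReal_mul]
    ring
  have hzr : (w / 2).re = w.re / 2 := by
    rw [show w / 2 = ((1 / 2 : ℝ) : ℂ) * w by push_cast; ring, Complex.re_ofReal_mul]
    ring
  generalize hz : w / 2 = z at hw2 hzi hzr
  have him : Real.pi * Real.exp (2 * R) < z.im := by rw [hzi]; linarith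
  have hre : z.re ≠ 0 := by
    intro h0
    have hwre : w.re = 0 := by rw [hzr] at h0; linarith
    have hwI : w = ((w.im : ℝ) : ℂ) * Complex.I := by
      apply Complex.ext <;> simp [hwre]
    rw [hwI, Pool.Agent.H788R2.Trunc.H_I] at hw
    have h1 := Pool.Agent.H788R2.Trunc.gg_pos (R := R / 2) (y := w.im) (by linarith)
    have h2 : Pool.Agent.H788R2.Trunc.gg (R / 2) w.im = 0 := by exact_mod_cast hw
    linarith
  have hpi : 0 < z.im := by linarith
  refine ⟨{z, -z, (starRingEnd ℂ) z, -(starRingEnd ℂ) z}, ?_, ?_⟩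
  · rw [Finset.card_insert_of_notMem, Finset.card_insert_of_notMem,
      Finset.card_insert_of_notMem, Finset.card_singleton]
    · rw [Finset.mem_singleton]
      intro h
      have := congrArg Complex.im h
      simp at this
      have := congrArg Complex.re h
      simp at this
      exact hre (by linarith)
    · simp only [Finset.mem_insert, Finset.mem_singleton, not_or]
      constructor
      · intro h
        have := congrArg Complex.re h
        simp at this
        exact hre (by linarith)
      · intro h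
        have := congrArg Complex.im h
        simp at this
        linarith
    · simp only [Finset.mem_insert, Finset.mem_singleton, not_or]
      refine ⟨?_, ?_, ?_⟩
      · intro h
        have := congrArg Complex.im h
        simp at this
        linarith
      · intro h
        have := congrArg Complex.im h
        simp at this
        linarith
      · intro h
        have := congrArg Complex.re h
        simp at this
        exact hre (by linarith)
  · intro u hu
    simp only [Finset.mem_insert, Finset.mem_singleton] at hu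
    have habs : |z.im| = z.im := abs_of_pos hpi
    rcases hu with rfl | rfl | rfl | rfl
    · exact ⟨hw2, hre, by rw [habs]; exact him⟩
    · refine ⟨by rw [F_neg]; exact hw2, ?_, ?_⟩
      · simpa using hre
      · simp only [Complex.neg_im, abs_neg]; rw [habs]; exact him
    · refine ⟨by rw [F_conj, hw2, map_zero], ?_, ?_⟩
      · simpa using hre
      · simp only [Complex.conj_im, abs_neg]; rw [habs]; exact him
    · refine ⟨by rw [F_neg, F_conj, hw2, map_zero], ?_, ?_⟩
      · simpa using hre
      · simp only [Complex.neg_im, Complex.conj_im, neg_neg]; rw [habs]; exact him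

/-- The kernel series converges, so that `Phi` is the intended function. -/
lemma summable_series (t : ℝ) : Summable fun n : ℕ =>
    (2 * Real.pi ^ 2 * ((n : ℝ) + 1) ^ 4 * Real.exp (9 * t / 2)
    - 3 * Real.pi * ((n : ℝ) + 1) ^ 2 * Real.exp (5 * t / 2)) *
      Real.exp (-(Real.pi * ((n : ℝ) + 1) ^ 2 * Real.exp (2 * t))) := by
  refine (Pool.Agent.Helper242.RK.summable_Phi (t / 2)).congr fun n => ?_
  rw [show 9 * (t / 2) = 9 * t / 2 by ring, show 5 * (t / 2) = 5 * t / 2 by ring,
    show 4 * (t / 2) = 2 * t by ring]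
  ring_nf

/-- In particular Q1 has the answer yes. -/
lemma affirmative : ∃ R : ℝ, 0 < R ∧ ∃ S : Finset ℂ, 2 < S.card ∧
    ∀ z ∈ S, F R z = 0 ∧ z.im ≠ 0 := by
  obtain ⟨S, hS, h⟩ := result 10 le_rfl
  refine ⟨10, by norm_num, S, by omega, fun z hz => ⟨(h z hz).1, ?_⟩⟩
  have h1 := (h z hz).2.2
  have h2 : 0 < Real.pi * Real.exp (2 * 10) := by positivity
  intro h3
  rw [h3, abs_zero] at h1
  linarith

end Pool.Agent.Results.MP_d99112_an.FourNonrealZeros
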